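import Mathlib

/-!
# The least order of an abelian group with unique multiset sums is `2 ^ (n - 1)`

If `g 0, ..., g N` has unique multiset sums then the `2 ^ N` subset sums of the elements
`g j - g 0`, `1 ≤ j ≤ N`, are pairwise distinct: if the subsets `U` and `V` had the same sum and
`V` had at most as many elements as `U`, then raising by one the multiplicities of the indices in
`V`, lowering by one those of the indices in `U`, and correcting the multiplicity of the index `0`
by `|U| - |V| ≥ 0` would give a second multiset of size `N + 1` with the same sum.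
-/

set_option autoImplicit false

namespace Pool.Agent.Results.MP_6623a1_co.LeastOrder

open Finset

/-- The family `g 0, ..., g (n-1)` has unique multiset sums: the all-ones vector is the only
vector `k` of natural numbers with `∑ k j = n` and `∑ k j • g j = ∑ g j`. -/
def UniqueMultisetSums {n : ℕ} {G : Type} [AddCommGroup G] (g : Fin n → G) : Prop :=
  ∀ k : Fin n → ℕ, ∑ j, k j = n → ∑ j, k j • g j = ∑ j, g j → ∀ j, k j = 1

theorem injective_of_ums {N : ℕ} {G : Type} [AddCommGroup G] (g : Fin (N + 1) → G)
    (hg : UniqueMultisetSums g) :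
    Function.Injective (fun U : Finset (Fin N) => ∑ j ∈ U, (g j.succ - g 0)) := by
  have key : ∀ U V : Finset (Fin N), V.card ≤ U.card →
      ∑ j ∈ U, (g j.succ - g 0) = ∑ j ∈ V, (g j.succ - g 0) → U = V := by
    intro U V hc hs
    let k : Fin (N + 1) → ℕ := Fin.cons (1 + U.card - V.card)
      (fun j => (1 + if j ∈ V then 1 else 0) - if j ∈ U then 1 else 0)
    have hkz : ∀ j : Fin N, ((k j.succ : ℕ) : ℤ)
        = 1 + (if j ∈ V then 1 else 0) - (if j ∈ U then 1 else 0) := by
      intro j
      simp only [k, Fin.cons_succ]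
      by_cases h1 : j ∈ V <;> by_cases h2 : j ∈ U <;> simp [h1, h2]
    have hk0 : ((k 0 : ℕ) : ℤ) = 1 + U.card - V.card := by
      simp only [k, Fin.cons_zero]
      omega
    have hsum : ∑ j, k j = N + 1 := by
      have : ((∑ j, k j : ℕ) : ℤ) = ((N + 1 : ℕ) : ℤ) := by
        push_cast
        rw [Fin.sum_univ_succ, hk0, Finset.sum_congr rfl (fun j _ => hkz j)]
        simp only [Finset.sum_sub_distrib, Finset.sum_add_distrib, Finset.sum_const,
          Finset.card_univ, Fintype.card_fin, Finset.sum_ite_mem, Finset.univ_inter]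
        simp
        ring
      exact_mod_cast this
    have hval : ∑ j, k j • g j = ∑ j, g j := by
      have h1 : ∀ j : Fin (N + 1), k j • g j = ((k j : ℕ) : ℤ) • g j := by
        intro j; simp
      rw [Finset.sum_congr rfl (fun j _ => h1 j), Fin.sum_univ_succ, hk0,
        Finset.sum_congr rfl (fun j _ => by rw [hkz j])]
      rw [Fin.sum_univ_succ (f := g)]
      have h2 : ∀ j : Fin N, ((1 + (if j ∈ V then 1 else 0) - (if j ∈ U then 1 else 0) : ℤ)) • g j.succ
          = g j.succ + (if j ∈ V then g j.succ else 0) - (if j ∈ U then g j.succ else 0) := by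
        intro j
        by_cases h1 : j ∈ V <;> by_cases h2 : j ∈ U <;> simp [h1, h2, two_smul]
      rw [Finset.sum_congr rfl (fun j _ => h2 j)]
      simp only [Finset.sum_sub_distrib, Finset.sum_add_distrib, Finset.sum_ite_mem,
        Finset.univ_inter]
      simp only [Finset.sum_sub_distrib, Finset.sum_const] at hs
      have h3 : ∑ j ∈ U, g j.succ = ∑ j ∈ V, g j.succ - V.card • g 0 + U.card • g 0 := by
        rw [← hs]; abel
      rw [h3, sub_smul, add_smul, one_smul, natCast_zsmul, natCast_zsmul]
      abel
    have hone := hg k hsum hval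
    ext j
    have := hkz j
    rw [hone j.succ] at this
    by_cases h1 : j ∈ V <;> by_cases h2 : j ∈ U <;> simp [h1, h2] at this ⊢
  intro U V h
  rcases le_total V.card U.card with hc | hc
  · exact key U V hc h
  · exact (key V U hc h.symm).symm

/-- The standard example: `0` and the basis vectors of `(ℤ/2)^N`. -/
theorem standard (N : ℕ) :
    UniqueMultisetSums (fun j : Fin (N + 1) => (Fin.cons 0
      (fun i : Fin N => (Pi.single i 1 : Fin N → ZMod 2)) : Fin (N + 1) → (Fin N → ZMod 2)) j) := by
  intro k hk hs
  rw [Fin.sum_univ_succ, Fin.sum_univ_succ] at hs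
  simp only [Fin.cons_zero, Fin.cons_succ, smul_zero, zero_add] at hs
  have hodd : ∀ i : Fin N, ((k i.succ : ℕ) : ZMod 2) = 1 := by
    intro i
    have := congrFun hs i
    simpa [Finset.sum_apply, Pi.single_apply] using this
  have hge : ∀ i : Fin N, 1 ≤ k i.succ := by
    intro i
    by_contra h
    have h0 : k i.succ = 0 := by omega
    have := hodd i
    rw [h0] at this
    simp at this
  rw [Fin.sum_univ_succ] at hk
  have hone : ∀ i : Fin N, k i.succ = 1 := by
    intro i
    by_contra h
    have h2 : k i.succ ≠ 2 := by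
      intro h2
      have := hodd i
      rw [h2] at this
      exact absurd this (by decide)
    have h3 : 3 ≤ k i.succ := by have := hge i; omega
    have h4 : ∑ j : Fin N, 1 < ∑ j : Fin N, k j.succ - 1 := by
      have : ∑ j : Fin N, k j.succ = k i.succ + ∑ j ∈ Finset.univ.erase i, k j.succ :=
        (Finset.add_sum_erase _ _ (Finset.mem_univ i)).symm
      have h5 : ∑ j ∈ Finset.univ.erase i, 1 ≤ ∑ j ∈ Finset.univ.erase i, k j.succ :=
        Finset.sum_le_sum fun j _ => hge j
      have h6 : ∑ j : Fin N, 1 = 1 + ∑ j ∈ Finset.univ.erase i, 1 :=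
        (Finset.add_sum_erase _ _ (Finset.mem_univ i)).symm
      omega
    simp at h4
    omega
  intro j
  refine Fin.cases ?_ hone j
  rw [Finset.sum_congr rfl (fun i _ => hone i)] at hk
  have h7 : k 0 + N = N + 1 := by simpa using hk
  show k 0 = 1
  omega

/-- For every `n ≥ 1` the least order of a finite abelian group that contains a family of `n`
elements with unique multiset sums is `2 ^ (n - 1)`. -/
theorem result (n : ℕ) (hn : 1 ≤ n) :
    IsLeast {N : ℕ | ∃ (G : Type) (_ : AddCommGroup G) (_ : Finite G) (g : Fin n → G),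
      Nat.card G = N ∧ UniqueMultisetSums g} (2 ^ (n - 1)) := by
  obtain ⟨N, rfl⟩ : ∃ N, n = N + 1 := ⟨n - 1, by omega⟩
  simp only [Nat.add_sub_cancel]
  refine ⟨⟨Fin N → ZMod 2, inferInstance, inferInstance, _, by simp, standard N⟩, ?_⟩
  rintro M ⟨G, hG, hfin, g, rfl, hg⟩
  have hinj := injective_of_ums g hg
  have := Nat.card_le_card_of_injective _ hinj
  simpa [Nat.card_eq_fintype_card] using this

end Pool.Agent.Results.MP_6623a1_co.LeastOrder
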